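import Pool.Agent.MT100D.Stmts
import Pool.Agent.Helper43_MT100G.Gfm
import Pool.Agent.Helper47_MT.Eva
import Pool.Agent.Helper27_MT.Trg

/-! MT100-D, module GFM: relations between the values of all the entries of a fundamental matrix;
rational exponents and arbitrary `H(0)`. -/

set_option autoImplicit false

namespace Pool.Agent.MT100D.H2

open Matrix Polynomial Pool.Agent.MT100 Pool.Agent.MT100G Pool.Agent.MT100A Pool.Agent.Helper78_MT
open Pool.Agent.MT100G.H43 (zpH zpH_apply gtype_zero dv_mul_ite)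
open scoped Kronecker

/-! ### Common denominators -/

theorem cden {ι : Type*} [Fintype ι] (x : ι → ℚ) :
    ∃ m : ℕ, 0 < m ∧ ∃ z : ι → ℤ, ∀ i, (m : ℚ) * x i = z i := by
  classical
  refine ⟨∏ i, (x i).den, Finset.prod_pos fun i _ => (x i).pos, ?_⟩
  have h : ∀ i, ∃ z : ℤ, (((∏ i, (x i).den : ℕ)) : ℚ) * x i = z := by
    intro i
    obtain ⟨c, hc⟩ := Finset.dvd_prod_of_mem (fun i => (x i).den) (Finset.mem_univ i)
    refine ⟨(c : ℤ) * (x i).num, ?_⟩
    rw [hc]
    have h1 : ((x i).den : ℚ) ≠ 0 := by exact_mod_cast (x i).den_nz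
    have h2 : x i = (x i).num / (x i).den := (Rat.num_div_den _).symm
    rw [Int.cast_mul, Int.cast_natCast, Nat.cast_mul]
    have h3 : ((x i).den : ℚ) * x i = (x i).num := by
      nth_rewrite 2 [h2]
      field_simp
    calc ((x i).den : ℚ) * (c : ℚ) * x i = c * (((x i).den : ℚ) * x i) := by ring
      _ = c * (x i).num := by rw [h3]
  choose z hz using h
  exact ⟨z, hz⟩

theorem cdenM {d : Type*} [Fintype d] (x : Matrix d d ℚ) :
    ∃ m : ℕ, 0 < m ∧ ∃ z : Matrix d d ℤ, ∀ i j, (m : ℚ) * x i j = z i j := by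
  obtain ⟨m, hm, z, hz⟩ := cden (fun p : d × d => x p.1 p.2)
  exact ⟨m, hm, fun i j => z (i, j), fun i j => hz (i, j)⟩

variable {d : Type} [Fintype d] [DecidableEq d]

theorem zpH_C (z : ℤ) : zpH (C z) = PowerSeries.C (z : ℚ) := by
  rw [show (C z : ℤ[X]) = ((z : ℤ) : ℤ[X]) from Polynomial.C_eq_intCast _, map_intCast zpH]
  exact (map_intCast (PowerSeries.C : ℚ →+* PowerSeries ℚ) z).symm

omit [Fintype d] in
theorem zpH_one (a b : d) :
    zpH ((1 : Matrix d d ℤ[X]) a b) = (1 : Matrix d d (PowerSeries ℚ)) a b := by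
  rw [Matrix.one_apply, Matrix.one_apply]
  split_ifs
  · exact map_one _
  · exact map_zero _

/-- the ring homomorphism of matrices given by the constants -/
noncomputable def cm : Matrix d d ℚ →+* Matrix d d (PowerSeries ℚ) :=
  (PowerSeries.C : ℚ →+* PowerSeries ℚ).mapMatrix

theorem cm_apply (M : Matrix d d ℚ) : cm M = M.map (fun x => PowerSeries.C x) := rfl

/-! ### The Kronecker product with the identity -/

omit [Fintype d] in
theorem AA_kron (N : Matrix d d ℤ) (δ : d → ℚ) :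
    AA (N ⊗ₖ (1 : Matrix d d ℤ) - (1 : Matrix d d ℤ) ⊗ₖ Nᵀ) (fun x : d × d => δ x.1 - δ x.2) =
      (AA N δ) ⊗ₖ (1 : Matrix d d ℚ) - (1 : Matrix d d ℚ) ⊗ₖ (AA N δ)ᵀ := by
  ext ⟨i, j⟩ ⟨k, l⟩
  simp only [AA, Matrix.add_apply, Matrix.sub_apply, Matrix.map_apply, Matrix.kronecker_apply,
    Matrix.transpose_apply, Matrix.diagonal_apply, Matrix.one_apply, Prod.mk.injEq]
  by_cases h1 : i = k <;> by_cases h2 : j = l
  · subst h1
    subst h2
    simp
    ring
  · subst h1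
    have h3 : ¬ l = j := fun h => h2 h.symm
    simp [h2, h3]
  · subst h2
    simp [h1]
  · have h3 : ¬ l = j := fun h => h2 h.symm
    simp [h1, h2, h3]

theorem gsysd_kron {H K : Matrix d d (PowerSeries ℚ)} {N : Matrix d d ℤ} {δ : d → ℚ} {q : ℤ[X]}
    {B : Matrix d d ℤ[X]} (hS : GSysD H K N δ q B) :
    ∃ (q' : ℤ[X]) (B' : Matrix (d × d) (d × d) ℤ[X]),
      GSysD (H ⊗ₖ (1 : Matrix d d (PowerSeries ℚ))) (K ⊗ₖ (1 : Matrix d d (PowerSeries ℚ)))
        (N ⊗ₖ (1 : Matrix d d ℤ) - (1 : Matrix d d ℤ) ⊗ₖ Nᵀ) (fun x : d × d => δ x.1 - δ x.2)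
        q' B' := by
  obtain ⟨m, hm, Z, hZ⟩ := cdenM (AA N δ)
  have hm0 : (m : ℤ) ≠ 0 := by exact_mod_cast hm.ne'
  refine ⟨C (m : ℤ) * q, C (m : ℤ) • (B ⊗ₖ (1 : Matrix d d ℤ[X])) -
    q • ((1 : Matrix d d ℤ[X]) ⊗ₖ (Zᵀ.map (fun x => C x))), ?_⟩
  refine ⟨⟨?_, ?_, ?_, mul_ne_zero (by rwa [Ne, C_eq_zero]) hS.q0, ?_, ?_, ?_⟩, ?_⟩
  · rw [← Matrix.mul_kronecker_mul, hS.inv, one_mul, Matrix.one_kronecker_one]
  · have hc : Commute (N ⊗ₖ (1 : Matrix d d ℤ)) ((1 : Matrix d d ℤ) ⊗ₖ Nᵀ) := by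
      show _ * _ = _ * _
      rw [← Matrix.mul_kronecker_mul, ← Matrix.mul_kronecker_mul, one_mul, mul_one, one_mul, mul_one]
    refine hc.isNilpotent_sub ?_ ?_
    · obtain ⟨m, hm⟩ := hS.nil
      refine ⟨m, ?_⟩
      have : ∀ t : ℕ, (N ⊗ₖ (1 : Matrix d d ℤ)) ^ t = (N ^ t) ⊗ₖ (1 : Matrix d d ℤ) := by
        intro t
        induction t with
        | zero => rw [pow_zero, pow_zero, Matrix.one_kronecker_one]
        | succ t ih => rw [pow_succ, ih, ← Matrix.mul_kronecker_mul, pow_succ, mul_one]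
      rw [this, hm, Matrix.zero_kronecker]
    · obtain ⟨m, hm⟩ := hS.nil
      refine ⟨m, ?_⟩
      have : ∀ t : ℕ, ((1 : Matrix d d ℤ) ⊗ₖ Nᵀ) ^ t = (1 : Matrix d d ℤ) ⊗ₖ (Nᵀ ^ t) := by
        intro t
        induction t with
        | zero => rw [pow_zero, pow_zero, Matrix.one_kronecker_one]
        | succ t ih => rw [pow_succ, ih, ← Matrix.mul_kronecker_mul, pow_succ, mul_one]
      rw [this, ← Matrix.transpose_pow, hm, Matrix.transpose_zero, Matrix.kronecker_zero]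
  · rintro ⟨i, j⟩ ⟨k, l⟩ h
    rw [Matrix.sub_apply, Matrix.kronecker_apply, Matrix.kronecker_apply, Matrix.transpose_apply,
      Matrix.one_apply, Matrix.one_apply] at h
    show δ i - δ j = δ k - δ l
    by_cases h1 : i = k
    · subst h1
      by_cases h2 : j = l
      · subst h2
        rfl
      · rw [if_neg h2, if_pos rfl, mul_zero, zero_sub, one_mul, neg_ne_zero] at h
        rw [hS.com _ _ h]
    · rw [if_neg h1, zero_mul, sub_zero] at h
      by_cases h2 : j = l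
      · subst h2
        rw [if_pos rfl, mul_one] at h
        rw [hS.com _ _ h]
      · rw [if_neg h2, mul_zero] at h
        exact absurd rfl h
  · set Bz : Matrix d d (PowerSeries ℚ) := B.map zp with hBz
    set Az : Matrix d d (PowerSeries ℚ) := (AA N δ).map (fun x => PowerSeries.C x) with hAz
    set c : PowerSeries ℚ := PowerSeries.C (m : ℚ) with hc
    have hq : zp (C (m : ℤ) * q) = c * zp q := by
      rw [← zpH_apply, map_mul, zpH_C, zpH_apply, hc]
      norm_num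
    have h1 : (H ⊗ₖ (1 : Matrix d d (PowerSeries ℚ))).map dv =
        (H.map dv) ⊗ₖ (1 : Matrix d d (PowerSeries ℚ)) := by
      ext ⟨i, j⟩ ⟨k, l⟩ : 2
      rw [Matrix.map_apply, Matrix.kronecker_apply, Matrix.kronecker_apply, Matrix.map_apply,
        Matrix.one_apply, dv_mul_ite]
    have h2 : (C (m : ℤ) • (B ⊗ₖ (1 : Matrix d d ℤ[X])) -
        q • ((1 : Matrix d d ℤ[X]) ⊗ₖ (Zᵀ.map (fun x => C x)))).map zp =
        c • (Bz ⊗ₖ (1 : Matrix d d (PowerSeries ℚ))) -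
          (c * zp q) • ((1 : Matrix d d (PowerSeries ℚ)) ⊗ₖ Azᵀ) := by
      ext ⟨i, j⟩ ⟨k, l⟩ : 1
      simp only [Matrix.map_apply, Matrix.sub_apply, Matrix.smul_apply, Matrix.kronecker_apply,
        Matrix.transpose_apply, smul_eq_mul, ← zpH_apply, map_sub, map_mul, hBz, hAz]
      rw [zpH_one, zpH_one, zpH_C, zpH_C, ← hZ l j,
        map_mul (PowerSeries.C : ℚ →+* PowerSeries ℚ), ← hc]
      have h3 : (PowerSeries.C (((m : ℤ) : ℤ) : ℚ) : PowerSeries ℚ) = c := by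
        rw [hc]
        norm_num
      rw [h3]
      ring
    have h3 : (AA (N ⊗ₖ (1 : Matrix d d ℤ) - (1 : Matrix d d ℤ) ⊗ₖ Nᵀ)
        (fun x : d × d => δ x.1 - δ x.2)).map (fun x => PowerSeries.C x) =
        Az ⊗ₖ (1 : Matrix d d (PowerSeries ℚ)) - (1 : Matrix d d (PowerSeries ℚ)) ⊗ₖ Azᵀ := by
      have h4 : ∀ a b : d, (PowerSeries.C ((1 : Matrix d d ℚ) a b) : PowerSeries ℚ) =
          (1 : Matrix d d (PowerSeries ℚ)) a b := by
        intro a b
        rw [Matrix.one_apply, Matrix.one_apply]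
        split_ifs
        · exact map_one _
        · exact map_zero _
      rw [AA_kron]
      ext ⟨i, j⟩ ⟨k, l⟩ : 2
      simp only [Matrix.map_apply, Matrix.sub_apply, Matrix.kronecker_apply,
        Matrix.transpose_apply, hAz]
      rw [map_sub, map_mul, map_mul, h4, h4]
    rw [hq, h1, h2, h3]
    have h5 : Bz ⊗ₖ (1 : Matrix d d (PowerSeries ℚ)) * H ⊗ₖ (1 : Matrix d d (PowerSeries ℚ)) =
        (Bz * H) ⊗ₖ (1 : Matrix d d (PowerSeries ℚ)) := by
      rw [← Matrix.mul_kronecker_mul, one_mul]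
    have h6 : (1 : Matrix d d (PowerSeries ℚ)) ⊗ₖ Azᵀ * H ⊗ₖ (1 : Matrix d d (PowerSeries ℚ)) =
        H ⊗ₖ Azᵀ := by
      rw [← Matrix.mul_kronecker_mul, one_mul, mul_one]
    have h7 : H ⊗ₖ (1 : Matrix d d (PowerSeries ℚ)) * Az ⊗ₖ (1 : Matrix d d (PowerSeries ℚ)) =
        (H * Az) ⊗ₖ (1 : Matrix d d (PowerSeries ℚ)) := by
      rw [← Matrix.mul_kronecker_mul, one_mul]
    have h8 : H ⊗ₖ (1 : Matrix d d (PowerSeries ℚ)) * (1 : Matrix d d (PowerSeries ℚ)) ⊗ₖ Azᵀ =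
        H ⊗ₖ Azᵀ := by
      rw [← Matrix.mul_kronecker_mul, one_mul, mul_one]
    have h9 : (zp q * PowerSeries.X) • ((H.map dv) ⊗ₖ (1 : Matrix d d (PowerSeries ℚ))) =
        (Bz * H) ⊗ₖ (1 : Matrix d d (PowerSeries ℚ)) -
          zp q • ((H * Az) ⊗ₖ (1 : Matrix d d (PowerSeries ℚ))) := by
      rw [← Matrix.smul_kronecker, hS.ode, ← hBz, ← hAz, sub_eq_add_neg (Bz * H),
        Matrix.add_kronecker, ← neg_smul, Matrix.smul_kronecker, neg_smul, ← sub_eq_add_neg]
    rw [mul_assoc c, mul_smul c, h9, sub_mul, mul_sub, Matrix.smul_mul, Matrix.smul_mul, h5, h6, h7,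
      h8, smul_sub, smul_sub]
    simp only [mul_smul]
    abel
  · rintro ⟨i, j⟩ ⟨k, l⟩
    rw [Matrix.kronecker_apply, Matrix.one_apply]
    split_ifs
    · rw [mul_one]
      exact hS.gH i k
    · rw [mul_zero]
      exact gtype_zero
  · rintro ⟨i, j⟩ ⟨k, l⟩
    rw [Matrix.kronecker_apply, Matrix.one_apply]
    split_ifs
    · rw [mul_one]
      exact hS.gK i k
    · rw [mul_zero]
      exact gtype_zero
  · rintro ⟨i, j⟩ ⟨k, l⟩
    rw [Matrix.kronecker_apply, map_mul, hS.one, Matrix.one_apply]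
    simp only [Prod.mk.injEq]
    by_cases h1 : i = k <;> by_cases h2 : j = l <;> simp [h1, h2]

/-- the case `H(0) = 1` -/
theorem gfmD (hG : GfvDStmt) {H K : Matrix d d (PowerSeries ℚ)} {N : Matrix d d ℤ} {δ : d → ℚ}
    {q : ℤ[X]} {B : Matrix d d ℤ[X]} (hS : GSysD H K N δ q B) :
    ∃ n0 : ℕ, ∀ n : ℕ, n0 ≤ n → ∀ a : Matrix d d ℚ,
      ∑ i, ∑ j, (a i j : ℝ) * ev (H i j) (n : ℝ)⁻¹ = 0 →
      ∃ p : Matrix d d ℚ[X], ∑ i, ∑ j, ((p i j : ℚ[X]) : PowerSeries ℚ) * H i j = 0 ∧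
        ∀ i j, (p i j).eval ((n : ℚ)⁻¹) = a i j := by
  obtain ⟨q', B', hK⟩ := gsysd_kron hS
  set u : d × d → ℤ := fun x => if x.1 = x.2 then 1 else 0 with hu
  have hNu : AA (N ⊗ₖ (1 : Matrix d d ℤ) - (1 : Matrix d d ℤ) ⊗ₖ Nᵀ)
      (fun x : d × d => δ x.1 - δ x.2) *ᵥ (fun i => (u i : ℚ)) = 0 := by
    rw [AA_kron]
    ext ⟨i, j⟩
    rw [Matrix.mulVec, dotProduct, Fintype.sum_prod_type]
    simp only [Matrix.sub_apply, Matrix.kronecker_apply, Matrix.transpose_apply, hu,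
      Matrix.one_apply]
    simp only [Int.cast_ite, Int.cast_one, Int.cast_zero, mul_ite, mul_one, mul_zero,
      Finset.sum_ite_eq, Finset.mem_univ, if_true, Pi.zero_apply]
    simp only [ite_mul, one_mul, zero_mul]
    rw [Finset.sum_sub_distrib]
    simp
  obtain ⟨n0, h0⟩ := hG (d × d) _ _ _ _ _ _ hK u hNu
  have hhv : ∀ x : d × d, hv (H ⊗ₖ (1 : Matrix d d (PowerSeries ℚ))) (fun j => (u j : ℚ)) x =
      H x.1 x.2 := by
    rintro ⟨i, j⟩
    unfold hv
    rw [Fintype.sum_prod_type]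
    simp only [Matrix.kronecker_apply, hu, Matrix.one_apply]
    rw [Finset.sum_eq_single j, Finset.sum_eq_single j]
    · simp
    · intro l _ hl
      rw [if_neg (Ne.symm hl)]
      simp
    · intro h
      exact absurd (Finset.mem_univ _) h
    · intro k _ hk
      refine Finset.sum_eq_zero fun l _ => ?_
      by_cases h1 : k = l
      · subst h1
        rw [if_neg (Ne.symm hk)]
        simp
      · rw [if_neg h1]
        simp
    · intro h
      exact absurd (Finset.mem_univ _) h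
  refine ⟨n0, fun n hn a ha => ?_⟩
  obtain ⟨p, hp1, hp2⟩ := h0 n hn (fun x => a x.1 x.2) (by
    rw [Fintype.sum_prod_type]
    simp only [hhv]
    exact ha)
  refine ⟨fun i j => p (i, j), ?_, fun i j => hp2 (i, j)⟩
  rw [Fintype.sum_prod_type] at hp1
  simp only [hhv] at hp1
  exact hp1

/-! ### The constant gauge transformation -/

theorem dv_cm_mul (M : Matrix d d ℚ) (H : Matrix d d (PowerSeries ℚ)) :
    (cm M * H).map dv = cm M * H.map dv := by
  refine Matrix.ext fun i j => ?_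
  rw [Matrix.map_apply, Matrix.mul_apply, Matrix.mul_apply]
  refine (map_sum (PowerSeries.derivative ℚ) _ _).trans ?_
  refine Finset.sum_congr rfl fun k _ => ?_
  rw [cm_apply, Matrix.map_apply, Matrix.map_apply, ← PowerSeries.smul_eq_C_mul,
    ← PowerSeries.smul_eq_C_mul]
  exact (PowerSeries.derivative ℚ).map_smul (M i k) (H k j)

theorem gtype_cm (M : Matrix d d ℚ) (i j : d) : GType (cm M i j) := by
  rw [cm_apply, Matrix.map_apply]
  exact Helper5_MT100.gconst _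

theorem gauge {H K : Matrix d d (PowerSeries ℚ)} {N : Matrix d d ℤ} {δ : d → ℚ} {q : ℤ[X]}
    {B : Matrix d d ℤ[X]} (hS : GSysW H K N δ q B) :
    ∃ (H0 K0 : Matrix d d ℚ) (q' : ℤ[X]) (B' : Matrix d d ℤ[X]), H0 * K0 = 1 ∧ K0 * H0 = 1 ∧
      GSysD (cm K0 * H) (K * cm H0) N δ q' B' := by
  set H0 : Matrix d d ℚ := H.map (fun f => PowerSeries.constantCoeff f) with hH0
  set K0 : Matrix d d ℚ := K.map (fun f => PowerSeries.constantCoeff f) with hK0
  have e1 : H0 * K0 = 1 := by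
    have h := congrArg (PowerSeries.constantCoeff (R := ℚ)).mapMatrix hS.inv
    rw [map_mul, map_one] at h
    exact h
  have e2 : K0 * H0 = 1 := mul_eq_one_comm.mp e1
  have e3 : cm H0 * cm K0 = 1 := by rw [← map_mul, e1, map_one]
  have e4 : cm K0 * cm H0 = 1 := by rw [← map_mul, e2, map_one]
  obtain ⟨m1, hm1, Z1, hZ1⟩ := cdenM K0
  obtain ⟨m2, hm2, Z2, hZ2⟩ := cdenM H0
  have hm0 : ((m1 * m2 : ℕ) : ℤ) ≠ 0 := by exact_mod_cast (Nat.mul_pos hm1 hm2).ne'
  refine ⟨H0, K0, C ((m1 * m2 : ℕ) : ℤ) * q, Z1.map (fun x => C x) * B * Z2.map (fun x => C x), e1, e2,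
    ⟨⟨?_, hS.nil, hS.com, mul_ne_zero (by rwa [Ne, C_eq_zero]) hS.q0, ?_, ?_, ?_⟩, ?_⟩⟩
  · calc cm K0 * H * (K * cm H0) = cm K0 * (H * K) * cm H0 := by
          rw [Matrix.mul_assoc, Matrix.mul_assoc, Matrix.mul_assoc]
      _ = 1 := by rw [hS.inv, mul_one, e4]
  · set Bz : Matrix d d (PowerSeries ℚ) := B.map zp with hBz
    set Az : Matrix d d (PowerSeries ℚ) := (AA N δ).map (fun x => PowerSeries.C x) with hAz
    set c1 : PowerSeries ℚ := PowerSeries.C (m1 : ℚ) with hc1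
    set c2 : PowerSeries ℚ := PowerSeries.C (m2 : ℚ) with hc2
    have hq : zp (C ((m1 * m2 : ℕ) : ℤ) * q) = (c1 * c2) * zp q := by
      rw [← zpH_apply, map_mul, zpH_C, zpH_apply, hc1, hc2, ← map_mul]
      norm_num
    have hB : (Z1.map (fun x => C x) * B * Z2.map (fun x => C x)).map zp =
        (c1 * c2) • (cm K0 * Bz * cm H0) := by
      have h1 : (Z1.map (fun x => C x) : Matrix d d ℤ[X]).map zpH = c1 • cm K0 := by
        ext i j : 2
        rw [Matrix.map_apply, Matrix.map_apply, zpH_C, Matrix.smul_apply, cm_apply, Matrix.map_apply,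
          smul_eq_mul, hc1, ← map_mul, hZ1]
      have h2 : (Z2.map (fun x => C x) : Matrix d d ℤ[X]).map zpH = c2 • cm H0 := by
        ext i j : 2
        rw [Matrix.map_apply, Matrix.map_apply, zpH_C, Matrix.smul_apply, cm_apply, Matrix.map_apply,
          smul_eq_mul, hc2, ← map_mul, hZ2]
      have h3 : (Z1.map (fun x => C x) * B * Z2.map (fun x => C x)).map zp =
          zpH.mapMatrix (Z1.map (fun x => C x) * B * Z2.map (fun x => C x)) := rfl
      rw [h3, map_mul, map_mul, RingHom.mapMatrix_apply, RingHom.mapMatrix_apply,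
        RingHom.mapMatrix_apply, h1, h2]
      have h4 : B.map zpH = Bz := rfl
      rw [h4, Matrix.smul_mul, Matrix.smul_mul, Matrix.mul_smul, smul_smul]
    have h5 : (zp q * PowerSeries.X) • (cm K0 * H.map dv) =
        cm K0 * Bz * cm H0 * (cm K0 * H) - zp q • (cm K0 * H * Az) := by
      rw [← Matrix.mul_smul, hS.ode, ← hBz, ← hAz, Matrix.mul_sub, Matrix.mul_smul,
        Matrix.mul_assoc (cm K0) H Az]
      congr 1
      calc cm K0 * (Bz * H) = cm K0 * Bz * H := (Matrix.mul_assoc _ _ _).symm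
        _ = cm K0 * Bz * (cm H0 * cm K0) * H := by rw [e3, mul_one]
        _ = _ := by simp only [Matrix.mul_assoc]
    rw [hq, hB, dv_cm_mul, mul_assoc (c1 * c2), mul_smul (c1 * c2) (zp q * PowerSeries.X), h5,
      smul_sub, Matrix.smul_mul, mul_smul (c1 * c2) (zp q)]
  · exact MT100.H27.gtype_mmul (gtype_cm K0) hS.gH
  · exact MT100.H27.gtype_mmul hS.gK (gtype_cm H0)
  · intro i j
    have h := congrFun (congrFun e2 i) j
    rw [Matrix.one_apply] at h
    rw [← h, Matrix.mul_apply, Matrix.mul_apply, map_sum]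
    refine Finset.sum_congr rfl fun k _ => ?_
    rw [map_mul, cm_apply, Matrix.map_apply, PowerSeries.constantCoeff_C, hH0, Matrix.map_apply]

/-! ### Values -/

theorem ev_C_mul (c : ℚ) (f : PowerSeries ℚ) (x : ℝ) :
    ev (PowerSeries.C c * f) x = c * ev f x := by
  unfold ev
  rw [← tsum_mul_left]
  refine tsum_congr fun k => ?_
  rw [PowerSeries.coeff_C_mul, Rat.cast_mul, mul_assoc]

/-- summability at `x` -/
def Sm (f : PowerSeries ℚ) (x : ℝ) : Prop :=
  Summable fun k => |((PowerSeries.coeff k f : ℚ) : ℝ)| * |x| ^ k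

theorem sm_C_mul (c : ℚ) {f : PowerSeries ℚ} {x : ℝ} (h : Sm f x) : Sm (PowerSeries.C c * f) x := by
  unfold Sm at h ⊢
  refine (h.mul_left |(c : ℝ)|).congr fun k => ?_
  rw [PowerSeries.coeff_C_mul, Rat.cast_mul, abs_mul, mul_assoc]

theorem ev_zero (x : ℝ) : ev 0 x = 0 := by
  unfold ev
  simp

theorem sm_zero (x : ℝ) : Sm 0 x := by
  unfold Sm
  simp [summable_zero]

theorem ev_sum {ι : Type*} (s : Finset ι) (f : ι → PowerSeries ℚ) {x : ℝ}
    (h : ∀ i ∈ s, Sm (f i) x) : Sm (∑ i ∈ s, f i) x ∧ ev (∑ i ∈ s, f i) x = ∑ i ∈ s, ev (f i) x := by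
  classical
  induction s using Finset.induction_on with
  | empty =>
    rw [Finset.sum_empty, Finset.sum_empty]
    exact ⟨sm_zero x, ev_zero x⟩
  | insert a s ha ih =>
    obtain ⟨h1, h2⟩ := ih fun i hi => h i (Finset.mem_insert_of_mem hi)
    rw [Finset.sum_insert ha, Finset.sum_insert ha]
    obtain ⟨_, h4, h5, _⟩ := MT100.H47.eva3 (f a) (∑ i ∈ s, f i) x
      (h a (Finset.mem_insert_self _ _)) h1
    exact ⟨h4, by rw [h5, h2]⟩

/-- GFMD -/
theorem gfm (hG : GfvDStmt) : GfmDStmt := by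
  intro d _ _ H hH
  obtain ⟨K, N, δ, q, B, hS⟩ := hH
  obtain ⟨H0, K0, q', B', e1, e2, hD⟩ := gauge hS
  obtain ⟨n0, h0⟩ := gfmD hG hD
  have hsm : ∀ᶠ n : ℕ in Filter.atTop, ∀ i j, Sm ((cm K0 * H) i j) (n : ℝ)⁻¹ := by
    rw [Filter.eventually_all]
    intro i
    rw [Filter.eventually_all]
    intro j
    obtain ⟨ε, hε, h1⟩ := MT100.H47.eva1 _ (hD.gH i j)
    have h2 : Filter.Tendsto (fun n : ℕ => ((n : ℝ))⁻¹) Filter.atTop (nhds 0) :=
      tendsto_inv_atTop_nhds_zero_nat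
    filter_upwards [Metric.tendsto_nhds.mp h2 ε hε] with n hn
    rw [Real.dist_eq, sub_zero] at hn
    exact h1 _ hn
  obtain ⟨n1, h1⟩ := Filter.eventually_atTop.mp hsm
  refine ⟨max n0 n1, fun n hn a ha => ?_⟩
  have hH' : ∀ i j, H i j = ∑ k, PowerSeries.C (H0 i k) * (cm K0 * H) k j := by
    intro i j
    have h2 : H = cm H0 * (cm K0 * H) := by
      rw [← Matrix.mul_assoc, ← map_mul, e1, map_one, one_mul]
    have h3 := congrFun (congrFun h2 i) j
    rw [Matrix.mul_apply] at h3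
    rw [h3]
    rfl
  have hev : ∀ i j, ev (H i j) (n : ℝ)⁻¹ =
      ∑ k, (H0 i k : ℝ) * ev ((cm K0 * H) k j) (n : ℝ)⁻¹ := by
    intro i j
    rw [hH' i j, (ev_sum Finset.univ _ fun k _ =>
      sm_C_mul (H0 i k) (h1 n (le_trans (le_max_right _ _) hn) k j)).2]
    exact Finset.sum_congr rfl fun k _ => ev_C_mul _ _ _
  obtain ⟨p, hp1, hp2⟩ := h0 n (le_trans (le_max_left _ _) hn) (H0ᵀ * a) (by
    rw [← ha]
    simp only [hev]
    have h4 : ∀ k j, (((H0ᵀ * a) k j : ℚ) : ℝ) = ∑ i, (H0 i k : ℝ) * (a i j : ℝ) := by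
      intro k j
      rw [Matrix.mul_apply, Rat.cast_sum]
      refine Finset.sum_congr rfl fun i _ => ?_
      rw [Matrix.transpose_apply, Rat.cast_mul]
    simp only [h4, Finset.sum_mul, Finset.mul_sum]
    rw [Finset.sum_comm]
    rw [Finset.sum_comm (s := Finset.univ (α := d)) (t := Finset.univ (α := d))
      (f := fun i j => ∑ k, (a i j : ℝ) * ((H0 i k : ℝ) * ev ((cm K0 * H) k j) (n : ℝ)⁻¹))]
    refine Finset.sum_congr rfl fun j _ => ?_
    rw [Finset.sum_comm]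
    refine Finset.sum_congr rfl fun i _ => Finset.sum_congr rfl fun k _ => ?_
    ring)
  refine ⟨fun i j => ∑ k, C (K0 k i) * p k j, ?_, ?_⟩
  · rw [← hp1]
    have h5 : ∀ k j, (cm K0 * H) k j = ∑ i, PowerSeries.C (K0 k i) * H i j := by
      intro k j
      rw [Matrix.mul_apply]
      rfl
    simp only [h5, Finset.mul_sum]
    have h6 : ∀ i j, (((∑ k, C (K0 k i) * p k j : ℚ[X])) : PowerSeries ℚ) =
        ∑ k, PowerSeries.C (K0 k i) * ((p k j : ℚ[X]) : PowerSeries ℚ) := by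
      intro i j
      rw [← Polynomial.coeToPowerSeries.ringHom_apply, map_sum]
      refine Finset.sum_congr rfl fun k _ => ?_
      rw [map_mul, Polynomial.coeToPowerSeries.ringHom_apply, Polynomial.coeToPowerSeries.ringHom_apply,
        Polynomial.coe_C]
    simp only [h6, Finset.sum_mul]
    rw [Finset.sum_comm]
    rw [Finset.sum_comm (s := Finset.univ (α := d)) (t := Finset.univ (α := d))
      (f := fun k j => ∑ i, ((p k j : ℚ[X]) : PowerSeries ℚ) * (PowerSeries.C (K0 k i) * H i j))]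
    refine Finset.sum_congr rfl fun j _ => ?_
    rw [Finset.sum_comm]
    refine Finset.sum_congr rfl fun k _ => Finset.sum_congr rfl fun i _ => ?_
    ring
  · intro i j
    rw [Polynomial.eval_finsetSum]
    have h7 : ∀ k, eval ((n : ℚ)⁻¹) (C (K0 k i) * p k j) = K0ᵀ i k * (H0ᵀ * a) k j := by
      intro k
      rw [Polynomial.eval_mul, Polynomial.eval_C, hp2, Matrix.transpose_apply]
    simp only [h7]
    rw [← Matrix.mul_apply, ← Matrix.mul_assoc, ← Matrix.transpose_mul, e1, Matrix.transpose_one,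
      one_mul]

end Pool.Agent.MT100D.H2
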