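import Pool.Agent.Helper34_MTA.FinC
import Pool.Agent.Helper97_MTD.Maa

/-! MT100-D: Hodge forms and Hodge tensors at the points; constancy of the Mumford-Tate group outside
the exceptional set; the theorem of the fixed part; no condition at infinity. -/

set_option autoImplicit false
set_option linter.unusedSectionVars false

namespace Pool.Agent.MT100D.H2

open Matrix Pool.Agent.MT100 Pool.Agent.MT100G Pool.Agent.MT100A Pool.Agent.Helper78_MT
  Pool.Agent.MT100A.H64 Pool.Agent.Helper46_MT Pool.Agent.MTA.H64T Pool.Agent.MTL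
open Pool.Agent.MT100A.H34 (e2 e2_val e2_tA eq_inv stable_of_pair Pup Pup_idem Pup_range phi_eq
  trace_Pup card_add Hdg pth pth_cont pth_one pth_two pth_re pair_fil ue_smul mt_sub lie2)

universe u

variable {d : Type} [Fintype d] [DecidableEq d] {w : ℕ} {E E' : Matrix d d ℚ}
  {V V' : ℕ → Submodule ℂ (d → ℂ)} {lev : d → ℕ} {P : Matrix d d ℂ} {π : ℕ → Matrix d d ℂ}

/-- a Hodge form of degree four is a Hodge tensor at the point -/
theorem hodgeAt_of_hdg (F : Family d) {c : ℂ} (hFil : F.HasFil lev P c V) {t : (Fin 4 → d) → ℚ}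
    (ht : Hdg w V t) : F.HodgeAt lev P w c t := by
  intro a ha
  exact MT100G.H97.frm_fil t V w (fun p x hx hp => ht p x hx (by omega))
    (fun j => lev (a j)) (show 2 * w < ∑ j, lev (a j) by omega) (fun j => F.per P c (a j)) (fun j => by
      rw [hFil (lev (a j))]
      exact Submodule.subset_span ⟨a j, le_refl _, rfl⟩)

/-- a Hodge tensor at the point is a Hodge form of degree four -/
theorem hdg_of_hodgeAt (F : Family d) {c : ℂ} (hV : PolHodge w E V) (hFil : F.HasFil lev P c V)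
    {t : (Fin 4 → d) → ℚ} (ht : F.HodgeAt lev P w c t) : Hdg w V t := by
  have hup : ∀ (p : Fin 4 → ℕ) (x : Fin 4 → d → ℂ), (∀ j, x j ∈ V (p j)) → 2 * w < ∑ j, p j →
      ∑ β, (t β : ℂ) * ∏ j, x j (β j) = 0 := by
    intro p x hx hp
    have h1 := MT100G.H97.frm_span t 1 (fun j => {y | ∃ a : d, p j ≤ lev a ∧ y = F.per P c a})
      (fun y hy => by
        choose a ha hya using hy
        have h2 := ht a (by
          have := Finset.sum_le_sum fun j (_ : j ∈ Finset.univ) => ha j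
          omega)
        unfold MT100G.H97.frm
        rw [← h2]
        refine Finset.sum_congr rfl fun β _ => ?_
        congr 1
        refine Finset.prod_congr rfl fun j _ => ?_
        show ((1 : Matrix d d ℂ) *ᵥ y j) (β j) = _
        rw [one_mulVec, hya j]) x (fun j => by
        rw [← hFil (p j)]
        refine (?_ : V (p j) ≤ _) (hx j)
        exact le_iSup₂_of_le (p j) (Set.mem_Ici.2 (le_refl _)) (le_refl _))
    simp only [one_mulVec] at h1
    exact h1
  intro p x hx hp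
  by_cases hlt : 2 * w < ∑ j, p j
  · exact hup p x hx hlt
  by_cases hple : ∀ j, p j ≤ w
  · have h1 := hup (fun j => w - p j) (fun j => star (x j))
      (fun j => hV.conj (p j) (hple j) (x j) (hx j)) (by
        have h2 : ∑ j : Fin 4, (w - p j) + ∑ j, p j = 4 * w := by
          rw [← Finset.sum_add_distrib]
          rw [Finset.sum_congr rfl (fun j _ => Nat.sub_add_cancel (hple j))]
          simp
        omega)
    have h2 := congrArg star h1
    rw [star_zero, star_sum] at h2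
    rw [← h2]
    refine Finset.sum_congr rfl fun β _ => ?_
    rw [star_mul', star_prod]
    congr 1
    · simp
    · refine Finset.prod_congr rfl fun j _ => ?_
      rw [Pi.star_apply, star_star]
  · push Not at hple
    obtain ⟨j, hj⟩ := hple
    have hx0 : x j = 0 := by
      have := hx j
      rw [hV.top (p j) hj, Submodule.mem_bot] at this
      exact this
    refine Finset.sum_eq_zero fun β _ => ?_
    rw [Finset.prod_eq_zero (Finset.mem_univ j) (by rw [hx0, Pi.zero_apply]), mul_zero]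

/-- the set of the exceptional points -/
def S0 (F : Family d) (lev : d → ℕ) (P : Matrix d d ℂ) (w : ℕ) : Set ℕ :=
  {n | ∃ t : (Fin 4 → d) → ℚ,
      (∀ a ∈ {a : Fin 4 → d | 2 * w < ∑ j, lev (a j)},
        ∑ β, (t β : ℂ) * ∏ j, F.per P n (a j) (β j) = 0) ∧
      ∃ g ∈ F.Zc, ∃ a ∈ {a : Fin 4 → d | 2 * w < ∑ j, lev (a j)},
        ∑ β, (t β : ℂ) * ∏ j, (P *ᵥ (F.Y n * g) (a j)) (β j) ≠ 0}

/-- the Hodge forms at a point which is not exceptional are invariant under the unipotents -/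
theorem inv_of (hB : BasDStmt) (hT : TenStmt) (hU : TeuStmt) (F : Family d) (hP : IsUnit P.det)
    (hInt : F.IntM P) (hw : 1 ≤ w) {n : ℕ} (hn : n ∉ S0 F lev P w) (hF : F.Fibre lev P w n E V)
    {t : (Fin 4 → d) → ℚ} (ht : Hdg w V t) :
    ∀ u ∈ Uni (F.Mo P), tA (fun β => (t β : ℂ)) u = fun β => (t β : ℂ) := by
  obtain ⟨hV, hInv, hFil⟩ := hF
  have hfil : ∀ g ∈ F.Zc, ∀ (p : Fin 4 → ℕ) (x : Fin 4 → d → ℂ), (∀ j, x j ∈ V (p j)) →
        2 * w < ∑ j, p j →
        ∑ β, (t β : ℂ) * ∏ j, ((P * gᵀ * P⁻¹) *ᵥ x j) (β j) = 0 := by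
    intro g hg p x hx hp
    have hker : ∀ a ∈ {a : Fin 4 → d | 2 * w < ∑ j, lev (a j)},
        ∑ β, (t β : ℂ) * ∏ j, F.per P n (a j) (β j) = 0 := by
      intro a ha
      exact hodgeAt_of_hdg F hFil ht a (by
        have : 2 * w < ∑ j, lev (a j) := ha
        omega)
    refine MT100G.H97.frm_span t (P * gᵀ * P⁻¹)
      (fun j => {y | ∃ a : d, p j ≤ lev a ∧ y = F.per P n a}) ?_ x ?_
    · intro y hy
      choose a ha hya using hy
      have h2 : ∑ β, (t β : ℂ) * ∏ j, (P *ᵥ (F.Y n * g) (a j)) (β j) = 0 := by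
        by_contra hne
        refine hn ⟨t, hker, g, hg, a, ?_, hne⟩
        exact lt_of_lt_of_le hp (Finset.sum_le_sum fun j _ => ha j)
      unfold MT100G.H97.frm
      rw [← h2]
      refine Finset.sum_congr rfl fun β _ => ?_
      congr 1
      refine Finset.prod_congr rfl fun j _ => ?_
      show ((P * gᵀ * P⁻¹) *ᵥ y j) (β j) = _
      rw [hya j, MT100D.H97.per_act F hP]
    · intro j
      show x j ∈ Submodule.span ℂ {y | ∃ a : d, p j ≤ lev a ∧ y = F.per P n a}
      rw [← hFil (p j)]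
      refine (?_ : V (p j) ≤ _) (hx j)
      exact le_iSup₂_of_le (p j) (Set.mem_Ici.2 (le_refl _)) (le_refl _)
  rintro u ⟨X, hX, rfl, hcl⟩
  refine hU d (F.Mo P) 4 (fun β => (t β : ℂ)) ?_ X hX hcl 1
  set M : Set (Matrix d d ℤ) := {A | A.map (fun x => (x : ℂ)) ∈ F.Mo P} with hM
  have hfin := hT d w E V hw hV 4 M ?_ t ?_
  · refine (hfin.image fun s β => ((s β : ℚ) : ℂ)).subset ?_
    rintro s ⟨γ, hγ, rfl⟩
    obtain ⟨B, hB'⟩ := hInt γ hγ
    refine ⟨_, ⟨B, by rw [hM]; show _ ∈ F.Mo P; rw [← hB']; exact hγ, rfl⟩, ?_⟩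
    funext α
    show ((tA t (B.map (fun x => (x : ℚ))) α : ℚ) : ℂ) = tA (fun β => (t β : ℂ)) γ α
    unfold tA
    rw [hB']
    push_cast
    rfl
  · intro B hB'
    have h1 := hInv _ hB'
    apply Matrix.map_injective (algebraMap ℚ ℂ).injective
    simp only
    rw [Matrix.map_mul, Matrix.map_mul, ← Matrix.transpose_map]
    have h2 : (B.map (fun x => (x : ℚ))).map (algebraMap ℚ ℂ) = B.map (fun x => (x : ℂ)) := by
      ext i j
      simp
    rw [h2]
    exact h1
  · intro B hB' p x hx hp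
    obtain ⟨g, hg, hγ⟩ := hB'
    have h1 := hfil g (MT100D.H97.zc_sub hB F hg) p x hx (by omega)
    rw [← hγ] at h1
    exact h1

/-- the fundamental matrix is invertible and continuous on a half plane -/
theorem half (hB : BasDStmt) (F : Family d) : ∃ n0 : ℕ,
    (∀ x : ℂ, (n0 : ℝ) < x.re → IsUnit (F.Y x).det) ∧
    ∀ i j, ContinuousOn (fun x : ℂ => F.Y x i j) {x | (n0 : ℝ) < x.re} := by
  obtain ⟨R, hR⟩ := hB d F
  obtain ⟨n0, hn0⟩ := exists_nat_gt R
  have h2 : ∀ x : ℂ, (n0 : ℝ) < x.re → SolOn F.q F.B x (x.re - R) F.Y := by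
    intro x hx
    refine hR.sol x (x.re - R) (by linarith) ?_
    intro y hy
    rw [Metric.mem_ball, dist_eq_norm] at hy
    have h3 := Complex.abs_re_le_norm (y - x)
    have h4 := neg_abs_le (y - x).re
    rw [Complex.sub_re] at h3 h4
    show R < y.re
    linarith
  refine ⟨n0, fun x hx => (h2 x hx).det x (Metric.mem_ball_self (by linarith)), ?_⟩
  intro i j x hx
  have hx' : (n0 : ℝ) < x.re := hx
  exact ((h2 x hx').ode x (Metric.mem_ball_self (by linarith)) i j).continuousAt.continuousWithinAt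

theorem per_li (F : Family d) (hP : IsUnit P.det) {x : ℂ} (hx : IsUnit (F.Y x).det) :
    LinearIndependent ℂ (F.per P x) := by
  have h1 : Matrix.of (F.per P x) = F.Y x * Pᵀ := by
    ext a i
    show (P *ᵥ F.Y x a) i = _
    rw [Matrix.mul_apply]
    show ∑ j, P i j * F.Y x a j = _
    exact Finset.sum_congr rfl fun j _ => by rw [transpose_apply, mul_comm]
  have h2 : IsUnit (Matrix.of (F.per P x)) := by
    rw [isUnit_iff_isUnit_det, h1, det_mul, det_transpose]
    exact hx.mul hP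
  exact Matrix.linearIndependent_rows_iff_isUnit.2 h2

theorem per_cont (F : Family d) {n0 : ℕ}
    (h : ∀ i j, ContinuousOn (fun x : ℂ => F.Y x i j) {x | (n0 : ℝ) < x.re}) (a : d) :
    ContinuousOn (fun x : ℂ => F.per P x a) {x | (n0 : ℝ) < x.re} := by
  refine continuousOn_pi.2 fun i => ?_
  show ContinuousOn (fun x : ℂ => ∑ j, P i j * F.Y x a j) _
  exact continuousOn_finsetSum _ fun j _ => continuousOn_const.mul (h a j)

theorem uni_iso (F : Family d) (hInv : F.InvM P E) {u : Matrix d d ℂ} (hu : u ∈ Uni (F.Mo P)) :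
    uᵀ * E.map (algebraMap ℚ ℂ) * u = E.map (algebraMap ℚ ℂ) := by
  obtain ⟨X, -, rfl, hcl⟩ := hu
  exact MT100A.H97.iso_zclosure hInv (hcl 1)

/-- an invariant bilinear Hodge tensor at one point is a Hodge tensor at all the points -/
theorem pair_all (F : Family d) {R : ℝ} (hFP : F.FixedPart lev P w R) {A : Matrix d d ℚ}
    (hA : ∀ u ∈ Uni (F.Mo P), uᵀ * A.map (algebraMap ℚ ℂ) * u = A.map (algebraMap ℚ ℂ))
    {x y : ℂ} (hx : R < x.re) (hy : R < y.re)
    (h : ∀ a b : d, w < lev a + lev b →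
      F.per P x a ⬝ᵥ (A.map (algebraMap ℚ ℂ) *ᵥ F.per P x b) = 0) :
    ∀ a b : d, w < lev a + lev b →
      F.per P y a ⬝ᵥ (A.map (algebraMap ℚ ℂ) *ᵥ F.per P y b) = 0 := by
  intro a b hab
  have h1 : F.HodgeAt lev P w x (e2 A) := by
    intro c hc
    rw [Fin.sum_univ_two] at hc
    rw [e2_val A fun j => F.per P x (c j)]
    exact h (c 0) (c 1) (by omega)
  have h2 := hFP 2 (e2 A) (fun u hu => e2_tA A (hA u hu)) x y hx hy h1 ![a, b] (by
    rw [Fin.sum_univ_two]
    simp only [Matrix.cons_val_zero, Matrix.cons_val_one]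
    omega)
  rw [e2_val A fun j => F.per P y (![a, b] j)] at h2
  exact h2

theorem set_eq (F : Family d) (x : ℂ) (p : ℕ) :
    {y | ∃ a : d, p ≤ lev a ∧ y = F.per P x a} = F.per P x '' {a | p ≤ lev a} := by
  ext y
  constructor
  · rintro ⟨a, ha, rfl⟩
    exact ⟨a, ha, rfl⟩
  · rintro ⟨a, ha, rfl⟩
    exact ⟨a, ha, rfl⟩

/-- the Deligne torus of the Hodge structure at `x` is contained in the Mumford-Tate group at `n` -/
theorem torus_sub (hB : BasDStmt) (F : Family d) (hP : IsUnit P.det) (hInt : F.IntM P) (hw : 1 ≤ w)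
    {n0 : ℕ}
    (hdet : ∀ x : ℂ, (n0 : ℝ) < x.re → IsUnit (F.Y x).det)
    (hcont : ∀ i j, ContinuousOn (fun x : ℂ => F.Y x i j) {x | (n0 : ℝ) < x.re})
    {R : ℝ} (hR : (n0 : ℝ) ≤ R) (hFP : F.FixedPart lev P w R) {n : ℕ}
    (hn : n ∉ S0 F lev P w) (hnR : R < n) (hF : F.Fibre lev P w n E V) {x : ℂ} (hx : R < x.re)
    (hV' : PolHodge w E' V') (hFil' : F.HasFil lev P x V') :
    hodgeTorus w V' ⊆ mtGroup w V ℂ := by
  classical
  have hF' := hF
  obtain ⟨hV, hInv, hFil⟩ := hF'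
  have hnR' : R < ((n : ℂ)).re := by
    rw [Complex.natCast_re]
    exact hnR
  refine lie2 hw hV hV' ?_ ?_
  · intro t ht
    refine hdg_of_hodgeAt F hV' hFil' ?_
    exact hFP 4 t (inv_of hB MT100A.H20.ten MT100A.H78.teu F hP hInt hw hn hF ht) n x hnR' hx
      (hodgeAt_of_hdg F hFil ht)
  · intro Q hQ hQ' hz π π' hπ hπ' h1 h1' h2 h2'
    have hFd : IsUnit (E.map (algebraMap ℚ ℂ)).det := det_map (det_ne hV)
    have hmem : ∀ (p : ℕ) (a : d), p ≤ lev a → F.per P n a ∈ ⨆ p' ∈ Set.Ici p, V p' := by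
      intro p a ha
      rw [hFil p]
      exact Submodule.subset_span ⟨a, ha, rfl⟩
    have hE : ∀ y : ℂ, R < y.re → ∀ a b : d, w < lev a + lev b →
        F.per P y a ⬝ᵥ (E.map (algebraMap ℚ ℂ) *ᵥ F.per P y b) = 0 := by
      intro y hy
      refine pair_all F hFP (fun u hu => uni_iso F hInv hu) hnR' hy fun a b hab => ?_
      have h3 := pair_fil hV (Q := 1) (fun p x hx => by rwa [one_mulVec]) hab
        (hmem (lev a) a (le_refl _)) (hmem (lev b) b (le_refl _))
      rwa [one_mulVec] at h3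
    have hEQ : ∀ y : ℂ, R < y.re → ∀ a b : d, w < lev a + lev b →
        F.per P y a ⬝ᵥ ((E * Q).map (algebraMap ℚ ℂ) *ᵥ F.per P y b) = 0 := by
      intro y hy
      refine pair_all F hFP (fun u hu => ?_) hnR' hy fun a b hab => ?_
      · exact eq_inv hFd (uni_iso F hInv hu)
          (inv_of hB MT100A.H20.ten MT100A.H78.teu F hP hInt hw hn hF hz u hu)
      · have h3 := pair_fil hV (Q := Q.map (algebraMap ℚ ℂ)) hQ hab
          (hmem (lev a) a (le_refl _)) (hmem (lev b) b (le_refl _))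
        rw [Matrix.map_mul, ← mulVec_mulVec]
        exact h3
    have hli : ∀ y : ℂ, R < y.re → LinearIndependent ℂ (F.per P y) := fun y hy =>
      per_li F hP (hdet y (lt_of_le_of_lt hR hy))
    -- the filtration is preserved at every point
    have hst : ∀ y : ℂ, R < y.re → ∀ p < w, ∀ a ∈ {a : d | p + 1 ≤ lev a},
        (Q.map (algebraMap ℚ ℂ)).mulVec (F.per P y a) ∈
          Submodule.span ℂ (F.per P y '' {a : d | p + 1 ≤ lev a}) := by
      intro y hy p hp
      refine stable_of_pair (hli y hy) hFd {a : d | p + 1 ≤ lev a} {a : d | w - p ≤ lev a} ?_ ?_ ?_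
      · exact card_add hV hπ h1 h2 (hli n hnR') (fun p => by rw [hFil p, set_eq]) hp.le
      · intro a ha b hb
        exact hE y hy b a (by
          have h3 : p + 1 ≤ lev a := ha
          have h4 : w - p ≤ lev b := hb
          omega)
      · intro a ha b hb
        have h3 := hEQ y hy b a (by
          have h3 : p + 1 ≤ lev a := ha
          have h4 : w - p ≤ lev b := hb
          omega)
        rw [Matrix.map_mul] at h3
        exact h3
    -- the traces
    have htr : ∀ p < w, (Q.map (algebraMap ℚ ℂ) * Pup w π (p + 1)).trace =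
        (Q.map (algebraMap ℚ ℂ) * Pup w π' (p + 1)).trace := by
      intro p hp
      obtain ⟨A, hA⟩ : ∃ A : Set d, {a : d | p + 1 ≤ lev a} = A := ⟨_, rfl⟩
      have hst' : ∀ y : ℂ, R < y.re → ∀ a ∈ A, (Q.map (algebraMap ℚ ℂ)).mulVec (F.per P y a) ∈
          Submodule.span ℂ (F.per P y '' A) := by
        intro y hy
        rw [← hA]
        exact hst y hy p hp
      obtain ⟨c, hc⟩ := trc (R := 0) (per := fun s a => F.per P (pth n x s) a) (fun a => by
          have h3 := per_cont (P := P) F hcont a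
          refine h3.comp (pth_cont (n : ℂ) x).continuousOn fun s _ => ?_
          exact lt_of_le_of_lt hR (pth_re hnR' hx s))
        (fun s _ => hli _ (pth_re hnR' hx s)) A (Q.map (algebraMap ℚ ℂ))
        (fun s _ a ha => hst' _ (pth_re hnR' hx s) a ha)
      obtain ⟨N, hN⟩ := exN A (Q.map (algebraMap ℚ ℂ)) (hst' n hnR')
      obtain ⟨N', hN'⟩ := exN A (Q.map (algebraMap ℚ ℂ)) (hst' x hx)
      have h3 := hc 1 one_pos N (by
        simp only [pth_one]
        exact hN)
      have h4 := hc 2 two_pos N' (by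
        simp only [pth_two]
        exact hN')
      have h5 := trp (hli n hnR') A _ N hN (Pup w π (p + 1))
        (Pup_idem hπ _) (by rw [Pup_range hV.top hπ h1 h2, hFil, set_eq, hA])
      have h6 := trp (hli x hx) A _ N' hN' (Pup w π' (p + 1))
        (Pup_idem hπ' _) (by rw [Pup_range hV'.top hπ' h1' h2', hFil', set_eq, hA])
      rw [h5, h6, h3, h4]
    rw [phi_eq, phi_eq, Finset.mul_sum, Finset.mul_sum, trace_sum, trace_sum]
    exact Finset.sum_congr rfl fun p hp => htr p (Finset.mem_range.1 hp)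

/-- the Mumford-Tate group contains the unipotents -/
theorem uni_mem (hB : BasDStmt) (F : Family d) (hP : IsUnit P.det) (hInt : F.IntM P) (hw : 1 ≤ w) {n : ℕ}
    (hn : n ∉ S0 F lev P w) (hF : F.Fibre lev P w n E V) :
    ∀ u ∈ Uni (F.Mo P), u ∈ mtGroup w V ℂ := by
  rintro u ⟨X, hX, rfl, hcl⟩
  refine MT100A.H64.lie d w E V hw hF.1 X hX (fun s => MT100A.H97.iso_zclosure hF.2.1 (hcl s)) ?_ 1
  intro t ht s
  refine inv_of hB MT100A.H20.ten MT100A.H78.teu F hP hInt hw hn hF ht (ue X s)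
    ⟨s • X, ?_, ?_, fun s' => ?_⟩
  · obtain ⟨k, hk⟩ := hX
    exact ⟨k, by rw [smul_pow, hk, smul_zero]⟩
  · rw [ue_smul, one_mul]
  · rw [ue_smul]
    exact hcl _

/-- the Mumford-Tate group is `Gen` -/
theorem mt_gen (hB : BasDStmt) (F : Family d) (hP : IsUnit P.det) (hInt : F.IntM P) (hw : 1 ≤ w) {n : ℕ}
    (hn : n ∉ S0 F lev P w) (hF : F.Fibre lev P w n E V) (K : Type u) [Field K] [CharZero K] :
    mtGroup w V K = GenM (F.Mo P) w V K := by
  have hU := uni_mem hB F hP hInt hw hn hF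
  refine Set.Subset.antisymm ?_ ?_
  · intro M hM I hI hT _
    exact hM I hI hT
  · intro M hM I hI hT
    exact hM I hI hT fun u hu => hU u hu I hI hT

/-- the final form: Hodge genericity of one hundred percent of the fibres, comparison with the l-adic
side, and constancy of the Mumford-Tate group for families which satisfy the theorem of the fixed part -/
theorem finC (hE : ElaDStmt) (hB : BasDStmt) (d : Type) [Fintype d] [DecidableEq d] (F : Family d)
    (w : ℕ) (lev : d → ℕ) (hw : 1 ≤ w) :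
    ∃ (C : ℕ) (n1 : ℕ → ℕ) (n0 : ℕ), ∀ P : Matrix d d ℂ, IsUnit P.det → F.IntM P →
      ∃ S : Set ℕ, DensZero S ∧
        (∀ K n : ℕ, n1 K ≤ n → Nat.card {m : ℕ // m ∈ S ∧ n < m + K ∧ m ≤ n} ≤ C) ∧
        (∀ n : ℕ, n ∉ S → ∀ (E : Matrix d d ℚ) (V : ℕ → Submodule ℂ (d → ℂ)),
          F.Fibre lev P w n E V →
          (∀ (K : Type u) [Field K] [CharZero K], mtGroup w V K = GenM (F.Mo P) w V K) ∧
          ∀ R : ℝ, n0 ≤ R → R < n → F.FixedPart lev P w R →
            ∀ x : ℂ, R < x.re → ∀ (E' : Matrix d d ℚ) (V' : ℕ → Submodule ℂ (d → ℂ)),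
            PolHodge w E' V' → F.HasFil lev P x V' →
            ∀ (K : Type u) [Field K] [CharZero K], mtGroup w V' K ⊆ mtGroup w V K) ∧
        ∀ (ℓ : ℕ) [Fact ℓ.Prime] (ρ : GT →* GL d ℚ_[ℓ]), Continuous ρ →
          ∃ T : Set ℕ, DensZero T ∧ ∀ n : ℕ, n ∉ S → n ∉ T →
            ∀ (E : Matrix d d ℚ) (V : ℕ → Submodule ℂ (d → ℂ)), F.Fibre lev P w n E V →
            ∀ ρn : GQ →* GL d ℚ_[ℓ], Specializes ρ n ρn →
            ∀ (K : Type u) [Field K] [CharZero K] [Algebra ℚ_[ℓ] K],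
              (monodromy ρn K = mtGroup w V K ↔ monodromy ρ K = GenM (F.Mo P) w V K) ∧
              ∀ R : ℝ, n0 ≤ R → R < n → F.FixedPart lev P w R →
                ∀ n' : ℕ, n' ∉ S → n' ∉ T → R < n' →
                ∀ (E' : Matrix d d ℚ) (V' : ℕ → Submodule ℂ (d → ℂ)), F.Fibre lev P w n' E' V' →
                ∀ ρn' : GQ →* GL d ℚ_[ℓ], Specializes ρ n' ρn' →
                  (monodromy ρn K = mtGroup w V K ↔ monodromy ρn' K = mtGroup w V' K) := by
  obtain ⟨C, n1, h⟩ := hE d F 4 {a | 2 * w < ∑ j, lev (a j)}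
  obtain ⟨n0, hdet, hcont⟩ := half hB F
  refine ⟨C, n1, n0, fun P hP hInt => ?_⟩
  obtain ⟨hwin, hden⟩ := h P hP (S0 F lev P w) fun n hn => hn
  have hsub : ∀ n : ℕ, n ∉ S0 F lev P w → ∀ (E : Matrix d d ℚ)
      (V : ℕ → Submodule ℂ (d → ℂ)), F.Fibre lev P w n E V →
      ∀ R : ℝ, n0 ≤ R → R < n → F.FixedPart lev P w R →
        ∀ x : ℂ, R < x.re → ∀ (E' : Matrix d d ℚ) (V' : ℕ → Submodule ℂ (d → ℂ)),
        PolHodge w E' V' → F.HasFil lev P x V' →
        ∀ (K : Type u) [Field K] [CharZero K], mtGroup w V' K ⊆ mtGroup w V K := by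
    intro n hn E V hF R hR hnR hFP x hx E' V' hV' hFil' K _ _
    exact mt_sub (torus_sub hB F hP hInt hw hdet hcont hR hFP hn hnR hF hx hV' hFil') K
  refine ⟨S0 F lev P w, hden, hwin, fun n hn E V hF =>
    ⟨fun K _ _ => mt_gen hB F hP hInt hw hn hF K, hsub n hn E V hF⟩, fun ℓ _ ρ hρ => ?_⟩
  obtain ⟨T, hT, h3⟩ := specialise.{u} serAll ρ hρ
  refine ⟨T, hT, fun n hnS hnT E V hF ρn hsp K _ _ _ => ⟨?_, ?_⟩⟩
  · rw [(h3 n hnT ρn hsp).2.2 K, mt_gen hB F hP hInt hw hnS hF K]
  · intro R hR hnR hFP n' hnS' hnT' hnR' E' V' hF' ρn' hsp'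
    have e1 : mtGroup w V' K = mtGroup w V K := Set.Subset.antisymm
      (hsub n hnS E V hF R hR hnR hFP n' (by rwa [Complex.natCast_re]) E' V' hF'.1 hF'.2.2 K)
      (hsub n' hnS' E' V' hF' R hR hnR' hFP n (by rwa [Complex.natCast_re]) E V hF.1 hF.2.2 K)
    rw [(h3 n hnT ρn hsp).2.2 K, (h3 n' hnT' ρn' hsp').2.2 K, e1]

end Pool.Agent.MT100D.H2
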